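import Mathlib
import Pool.Agent.Q34.RP.Eqv
import Pool.Agent.Results.MP_f82ddf_nt.HolonomicLang

set_option autoImplicit false

/-!
# Lang's conjecture on hyperbolicity for cyclotomic points and sums of radicals

Let `X` be the closed subscheme of projective `n`-space over the number field `K` given by the forms
`F i`, `Z` the one given by the forms `G l` (`Z` is empty if one of them is `1`), and `σ` an embedding
of `K` in the complex numbers. The following are equivalent:

1. all nonconstant entire curves in `X` with homogeneous coordinates which satisfy linear differential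
   equations with polynomial coefficients lie in `Z`;
2. all rational curves in `X` lie in `Z`;
3. for every number field `L ⊇ K`, all `e_1, …, e_g` in `L` and all `B`, there are only finitely many
   points of `X` outside `Z` over the algebraic numbers with homogeneous coordinates `∑ e_i β_i`, where
   the `β_i` are cyclotomic integers of any conductor, all of whose conjugates have absolute value at
   most `B`;
4. (explicit orders) for all number fields `L ⊇ K`, all `r` and ALL vectors `V_1, …, V_r` over `L`, every
   point of `X` outside `Z` with homogeneous coordinates `∑ u_j V_j`, with roots of unity or zero `u_j`,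
   is also given by zero or roots of unity of one order `m ≤ (9 r d [L : ℚ]) ^ (2 r)`, where `d` bounds
   the degrees of the `F i`;
5. (Northcott property of sums of radicals) for every number field `L ⊇ K`, all `r` and `H`, there are
   only finitely many points of `X` outside `Z` of height at most `H` with homogeneous coordinates
   `∑ u_j V_j`, a sum of `r` terms, where the `V_j` are vectors over `L` and the `u_j` are radicals over
   `L`, that is, algebraic numbers of any degree with a power in `L`;
6. (explicit exponents) for all number fields `L ⊇ K`, all `r` and ALL vectors `V_1, …, V_r` over `L`,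
   every point of `X` outside `Z` with homogeneous coordinates `∑ u_j V_j`, with radicals `u_j` over `L`,
   is also given by `w_j` with `w_j ^ B ∈ L` for one exponent `B ≤ radBound r d [L : ℚ]`.

Both conditions of Lang's conjecture, that all entire curves in `X` lie in `Z` (for empty `Z` this is
hyperbolicity, by Brody's theorem) and that the sets `X(L)` without the points of `Z` are finite for all
number fields `L ⊇ K`, imply these. The points in 3, 4, 5 and 6 are not defined over a fixed number
field.
-/

namespace Pool.Agent.Results.MP_f82ddf_nt.CyclotomicRadicalLang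

open MvPolynomial Pool.Agent.Q34.RP
open Pool.Agent.TH143 (PolODE)
open Pool.Agent.TH143.HE (IsPtP NonConstC PEntireCurvesIn rat_of_pentire pentire_of_rat)
open scoped LinearAlgebra.Projectivization

variable {K : Type} [Field K] {n : ℕ} {ι κ : Type}

/-- All nonconstant entire curves in `X`, with homogeneous coordinates satisfying the condition `C`, lie
in `Z`. -/
def EntireCurvesIn (C : (ℂ → ℂ) → Prop) (σ : K →+* ℂ) (F : ι → MvPolynomial (Fin (n + 1)) K)
    (G : κ → MvPolynomial (Fin (n + 1)) K) : Prop :=
  ∀ f : ℂ → Fin (n + 1) → ℂ, (∀ j, Differentiable ℂ fun z => f z j) → (∀ z, f z ≠ 0) →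
    (∀ j, C fun z => f z j) → (∀ z i, eval₂ σ (f z) (F i) = 0) →
    (∃ z w j k, f z j * f w k ≠ f z k * f w j) → ∀ z l, eval₂ σ (f z) (G l) = 0

/-- For every finite extension `L` of `K` there are only finitely many points of `X(L)` outside
`Z`. -/
def FinitelyManyPoints (F : ι → MvPolynomial (Fin (n + 1)) K)
    (G : κ → MvPolynomial (Fin (n + 1)) K) : Prop :=
  ∀ (L : Type) [Field L] [NumberField L] [Algebra K L],
    {P : ℙ L (Fin (n + 1) → L) | POn F G P.rep}.Finite

theorem pEntire_iff (σ : K →+* ℂ) (F : ι → MvPolynomial (Fin (n + 1)) K)
    (hF : ∀ i, ∃ e, (F i).IsHomogeneous e) (G : κ → MvPolynomial (Fin (n + 1)) K)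
    (hG : ∀ i, ∃ e, (G i).IsHomogeneous e) :
    EntireCurvesIn PolODE σ F G ↔
      PEntireCurvesIn σ (Ideal.span (Set.range F)) (Ideal.span (Set.range G)) := by
  unfold EntireCurvesIn PEntireCurvesIn NonConstC
  simp only [isPtP_span σ F hF, isPtP_span σ G hG]

theorem result [NumberField K] (σ : K →+* ℂ) [Finite ι] [Finite κ]
    (F : ι → MvPolynomial (Fin (n + 1)) K) (hF : ∀ i, ∃ e, (F i).IsHomogeneous e)
    (G : κ → MvPolynomial (Fin (n + 1)) K) (hG : ∀ l, ∃ e, (G l).IsHomogeneous e) :
    List.TFAE [EntireCurvesIn PolODE σ F G, RationalIn σ F G, CycIntegralFinite F G,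
      OrdersBounded F G, RadicalNorthcott F G, ExponentsBounded F G] ∧
    (EntireCurvesIn (fun _ => True) σ F G → CycIntegralFinite F G ∧ RadicalNorthcott F G) ∧
    (FinitelyManyPoints F G → CycIntegralFinite F G ∧ RadicalNorthcott F G) := by
  have h12 : EntireCurvesIn PolODE σ F G ↔ RationalIn σ F G := by
    rw [pEntire_iff σ F hF G hG, rationalIn_iff σ F hF G hG]
    exact ⟨rat_of_pentire, pentire_of_rat⟩
  have h : List.TFAE [EntireCurvesIn PolODE σ F G, RationalIn σ F G, CycIntegralFinite F G,
      OrdersBounded F G, RadicalNorthcott F G, ExponentsBounded F G] := by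
    tfae_have 1 ↔ 2 := h12
    tfae_have 2 → 4 := orders_of_rational σ F G hG
    tfae_have 4 → 3 := cyc_of_orders F hF G
    tfae_have 2 → 6 := exponents_of_rational σ F G hG
    tfae_have 6 → 5 := northcott_of_exponents F hF G
    tfae_have 5 → 2 := rational_of_northcott σ F G
    tfae_have 3 → 2 := rational_of_cyc σ F G
    tfae_finish
  refine ⟨h, fun h1 => ?_, fun h1 => ?_⟩
  · have h2 : EntireCurvesIn PolODE σ F G :=
      fun f hf hf0 _ hfF hfc => h1 f hf hf0 (fun _ => trivial) hfF hfc
    exact ⟨(h.out 0 2).1 h2, (h.out 0 4).1 h2⟩
  · have h2 : EntireCurvesIn PolODE σ F G := by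
      rw [pEntire_iff σ F hF G hG]
      refine (Pool.Agent.Results.MP_f82ddf_nt.HolonomicLang.result σ _ _).2.2 ?_
      intro L _ _ _
      refine (h1 L).subset ?_
      rintro P ⟨hP1, hP2⟩
      have hP1' : IsPtP (algebraMap K L) (Ideal.span (Set.range F)) P.rep := hP1
      have hP2' : ¬ IsPtP (algebraMap K L) (Ideal.span (Set.range G)) P.rep := hP2
      rw [isPtP_span _ F hF] at hP1'
      rw [isPtP_span _ G hG] at hP2'
      push Not at hP2'
      exact ⟨P.rep_nonzero, hP1', hP2'⟩
    exact ⟨(h.out 0 2).1 h2, (h.out 0 4).1 h2⟩

end Pool.Agent.Results.MP_f82ddf_nt.CyclotomicRadicalLang
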