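import Mathlib
import Pool.Agent.Q103.AR.Stm

/-!
# Finiteness of rational points implies Kobayashi hyperbolicity for surfaces which carry a map with many
preperiodic points

`X` is a projective surface over a number field `k`, defined by the forms `F`, and `σ : k → ℂ` an
embedding. `IsModel σ F x` (`Pool/Agent/Q103/AR/Stm.lean`): the complex surface `X_σ` is integral (no
smoothness is assumed), with the generic point `x`: homogeneous coordinates in its function field `K`
whose ratios generate `K`; the forms `σ F` vanish at `x`, and all common zeros of the forms `σ F` are
points of the variety with the generic point `x`. `Points F L` is `X(L)`, a subset of `ℙ ^ M (L)`.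

`ManyPrep ℂ d B p q` (`Pool/Agent/Q103/EC/Mxv.lean`): `f = p / q` is a rational map of the projective
line over `K` of degree `d` (a family of rational maps over an open subset of `X`) with at least `B`
preperiodic points in `P^1(K)` and with generically finite moduli map `X_σ ⇢ M_d`, i.e. maximal variation
(`MaxVar`): whenever `f` is conjugate over an algebraic closure of `K` to a map with coefficients
algebraic over a field `F` between `ℂ` and `K`, then `K` is algebraic over `F`. For instance all
generically finite covers, over number fields, of the surfaces of the quadratic maps with a marked point
of exact period `n ≥ B`, `3` (these are defined over the rational numbers) are such surfaces.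

Theorem: if `X(L)` is finite for all finite extensions `L` of `k`, then `X_σ` is Kobayashi hyperbolic.

Proof. `X_σ` is Kobayashi hyperbolic if it contains no image of an elliptic curve (projects GT of
helper41, EC, KO and SF of helper103, see `MP_c6ff8d_ag.ManyPreperiodicSurfaces`). A nonconstant map from
an elliptic curve `y ^ 2 = x ^ 3 + a x + b` to `X_σ` is given by finitely many elements of its coordinate
ring, which satisfy polynomial identities with coefficients in a finitely generated `k`-algebra `R`. By
the Nullstellensatz these can be specialized to a finite extension of `k`, and over a further extension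
the specialized cubic has infinitely many points: start with a point whose coordinate `x` has a large
`2`-adic absolute value; duplication multiplies it by four (`Pool/Agent/Q103/AR`).
-/

set_option autoImplicit false

namespace Pool.Agent.Results.MP_f82ddf_nt.ManyPreperiodicSurfaces

open Polynomial
open Pool.Agent.W602.GT
open Pool.Agent.Q103.EC (ManyPrep)
open Pool.Agent.Q103.SF
open Pool.Agent.Q103.AR (IsModel Points low_empty)

/-- For every `d ≥ 2` there is `B` such that for every number field `k`, every embedding `σ` of `k` into
the complex numbers and every projective surface `X` over `k` such that the function field of `X_σ`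
carries a rational map of degree `d` with at least `B` preperiodic points and generically finite moduli
map: if `X(L)` is finite for every finite extension `L` of `k`, then `X_σ` is Kobayashi hyperbolic (and
Brody hyperbolic, algebraically hyperbolic, all its closed subvarieties of positive dimension are of
general type, and all holomorphic maps from the punctured disc to `X_σ` extend to the disc). -/
theorem result (d : ℕ) (hd : 2 ≤ d) :
    ∃ B : ℕ, ∀ (k : Type) [Field k] [NumberField k] (σ : k →+* ℂ) (M : ℕ) (ι : Type)
      (F : ι → MvPolynomial (Fin (M + 1)) k) (K : Type) [Field K] [Algebra ℂ K]
      (x : Fin (M + 1) → K), x ≠ 0 → coords ℂ x = ⊤ → Algebra.trdeg ℂ K = (2 : ℕ) →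
      IsModel σ F x → ∀ p q : K[X], ManyPrep ℂ d B p q →
      (∀ (L : Type) [Field L] [NumberField L] [Algebra k L], (Points F L).Finite) →
      KobayashiHyp x ∧ BrodyHyp x ∧ AlgHyp x ∧ AllGeneral x ∧ PicardHyp x := by
  obtain ⟨B, hB⟩ := surface_tfae d hd
  refine ⟨B, fun k _ _ σ M ι F K _ _ x hx hgen htr hF p q h hfin => ?_⟩
  obtain ⟨-, h2, h3⟩ := hB K p q h htr M x hx hgen
  have h0 : lowCurves x = ∅ := low_empty σ hF h2 hfin
  exact ⟨(h3.out 8 0).mp h0, (h3.out 8 1).mp h0, (h3.out 8 5).mp h0, (h3.out 8 6).mp h0,
    (h3.out 8 2).mp h0⟩

end Pool.Agent.Results.MP_f82ddf_nt.ManyPreperiodicSurfaces
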