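import Pool.Agent.Q72.OK.Fermat
import Pool.Agent.Q72.OK.A1c

/-!
MP_f82ddf_nt, Q1: the conjecture of Lang for the orbifold pairs given by a projective variety and
`n + 1` hyperplanes with multiplicities, and for the Fermat coverings of projective varieties.
-/

set_option autoImplicit false

namespace Pool.Agent.Results.MP_f82ddf_nt.OrbifoldHyperbolicity

open MvPolynomial
open Pool.Agent.Q72.TR (Trunc MultGe Cur Mono)
open Pool.Agent.Q72.OK
open Pool.Agent.W235.PR (RationalFinite)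
open scoped NumberField LinearAlgebra.Projectivization

variable {K : Type} [Field K] {ι : Type} {n : ℕ}

/-- The forms `ℓ` as a linear map. -/
abbrev lin (ℓ : (Fin (n + 1) → ℂ) ≃ₗ[ℂ] (Fin (n + 1) → ℂ)) :
    (Fin (n + 1) → ℂ) →ₗ[ℂ] (Fin (n + 1) → ℂ) := ℓ

/-- For the hyperplanes `ℓ i = 0` over `L`: the points of `V` over `L` with homogeneous coordinates
`x` such that all `ℓ x i` are zero or lie in the finitely generated group `Γ` (for instance a group
of `S`-units) are finite in number. -/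
def FiniteIntegral (F : ι → MvPolynomial (Fin (n + 1)) (𝓞 K)) (L : Type) [Field L] [Algebra K L]
    (ℓ : (Fin (n + 1) → L) ≃ₗ[L] (Fin (n + 1) → L)) : Prop :=
  ∀ Γ : Subgroup Lˣ, Γ.FG → (integralPts F (fun _ : Unit => 1) L ℓ Γ).Finite

/-- The truncated inequality `ε T(r) ≤ N(r)` for all nonconstant entire curves in `V`, where each
intersection with the hyperplanes `ℓ i = 0` is counted once. -/
def TruncatedInequality (σ : K →+* ℂ) (F : ι → MvPolynomial (Fin (n + 1)) (𝓞 K)) (ε : ℝ)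
    (ℓ : (Fin (n + 1) → ℂ) ≃ₗ[ℂ] (Fin (n + 1) → ℂ)) : Prop :=
  ∀ f, Curve σ F f → Trunc ε (lin ℓ) 1 f

/-- Every entire curve in `V` all of whose intersections with the hyperplanes `ℓ i = 0` have a
multiplicity at least `m` is constant. -/
def BrodyOrbifold (σ : K →+* ℂ) (F : ι → MvPolynomial (Fin (n + 1)) (𝓞 K)) (m : ℕ)
    (ℓ : (Fin (n + 1) → ℂ) ≃ₗ[ℂ] (Fin (n + 1) → ℂ)) : Prop :=
  ∀ f, Curve σ F f → ¬ MultGe m (lin ℓ) 1 f

/-- The orbifold pair `(V, (1 - 1/m) ∑ (ℓ i = 0))` is Kobayashi hyperbolic. -/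
def KobayashiOrbifold (σ : K →+* ℂ) (F : ι → MvPolynomial (Fin (n + 1)) (𝓞 K)) (m : ℕ)
    (ℓ : (Fin (n + 1) → ℂ) ≃ₗ[ℂ] (Fin (n + 1) → ℂ)) : Prop :=
  Hyperbolic m ℓ (points σ F)

/-- The complex points of the Fermat covering `{(y_0 : ... : y_n) : ℓ⁻¹ (y_0 ^ k, ..., y_n ^ k) ∈ V}`
of `V`. -/
def fermat (σ : K →+* ℂ) (F : ι → MvPolynomial (Fin (n + 1)) (𝓞 K)) (k : ℕ)
    (ℓ : (Fin (n + 1) → ℂ) ≃ₗ[ℂ] (Fin (n + 1) → ℂ)) : Set (ℙ ℂ (Fin (n + 1) → ℂ)) :=
  {p | ∀ i, eval₂ (σ.comp (algebraMap (𝓞 K) K)) (ℓ.symm fun j => p.rep j ^ k) (F i) = 0}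

/-- The forms `F i (y_0 ^ k, ..., y_n ^ k)` of the Fermat covering of `V` in the coordinates of
`P^n`. -/
noncomputable def fermatForms (F : ι → MvPolynomial (Fin (n + 1)) (𝓞 K)) (k : ℕ) :
    ι → MvPolynomial (Fin (n + 1)) (𝓞 K) :=
  fun i => expand k (F i)

/-- The Fermat covering of `V` of exponent `k` is Kobayashi hyperbolic. -/
def KobayashiFermat (σ : K →+* ℂ) (F : ι → MvPolynomial (Fin (n + 1)) (𝓞 K)) (k : ℕ)
    (ℓ : (Fin (n + 1) → ℂ) ≃ₗ[ℂ] (Fin (n + 1) → ℂ)) : Prop :=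
  Hyperbolic 1 (LinearEquiv.refl ℂ _) (fermat σ F k ℓ)

theorem fermat_eq {σ : K →+* ℂ} {F : ι → MvPolynomial (Fin (n + 1)) (𝓞 K)} {k : ℕ}
    {ℓ : (Fin (n + 1) → ℂ) ≃ₗ[ℂ] (Fin (n + 1) → ℂ)} :
    FermatCover (forms σ F) k ℓ = fermat σ F k ℓ := by
  ext p
  constructor
  · intro h i
    rw [eval₂_eq_eval_map]
    exact h _ ⟨i, rfl⟩
  · rintro h _ ⟨i, rfl⟩
    change eval _ (MvPolynomial.map _ (F i)) = 0
    rw [← eval₂_eq_eval_map]
    exact h i

theorem eval₂_fermat {R : Type} [CommRing R] (f : 𝓞 K →+* R)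
    (F : ι → MvPolynomial (Fin (n + 1)) (𝓞 K)) (k : ℕ) (i : ι) (y : Fin (n + 1) → R) :
    eval₂ f y (fermatForms F k i) = eval₂ f (fun j => y j ^ k) (F i) := by
  unfold fermatForms
  induction F i using MvPolynomial.induction_on with
  | C a => rw [expand_C, eval₂_C, eval₂_C]
  | add p q hp hq => rw [map_add, eval₂_add, eval₂_add, hp, hq]
  | mul_X p j hp => rw [map_mul, expand_X, eval₂_mul, eval₂_mul, eval₂_pow, eval₂_X, eval₂_X, hp]

theorem fermat_hom {F : ι → MvPolynomial (Fin (n + 1)) (𝓞 K)}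
    (hF : ∀ i, ∃ e, (F i).IsHomogeneous e) (k : ℕ) :
    ∀ i, ∃ e, (fermatForms F k i).IsHomogeneous e := by
  intro i
  obtain ⟨e, he⟩ := hF i
  refine ⟨k * e, ?_⟩
  have h1 : fermatForms F k i = aeval (fun j => (X j : MvPolynomial (Fin (n + 1)) (𝓞 K)) ^ k)
      (F i) := rfl
  rw [h1]
  refine he.aeval _ fun j => ?_
  have := (isHomogeneous_X (𝓞 K) j).pow k
  simpa using this

/-- For all `n` and `d` there are `ε > 0`, `B` and `m` such that the following is true for all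
number fields `K` in `ℂ` (via `σ`) and all projective varieties `V` in `P^n` which are given by
(finitely many) forms of degrees at most `d` over `K`.

(A) The following are equivalent, where the hyperplanes are the coordinate hyperplanes: (1) for every
number field `L` over `K` and every finitely generated group `Γ` only finitely many points of `V` over
`L` have homogeneous coordinates in `Γ ∪ {0}`; (2) `V` contains no monomial curves
`(x_i t ^ k_i)` of degree at most `B` over `ℂ`; (3) the truncated inequality with `ε`; (4) entire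
curves in `V` with multiplicities at least `m` are constant; (5) the orbifold pair with the
multiplicities `m` is Kobayashi hyperbolic; (6) the Fermat coverings of `V` of all exponents
`k ≥ m`, `k > 0`, are Kobayashi hyperbolic; (7) one of the Fermat coverings of `V` of exponent
`k > 0` is Kobayashi hyperbolic; (8) for all `k > 0`, all `L` and all `Γ` only finitely many points
over `L` of the Fermat covering of exponent `k` have homogeneous coordinates in `Γ ∪ {0}`; (9) this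
is true for one `k > 0` and all `L` and `Γ`. In particular, for the Fermat coverings of exponents
`k ≥ m` the properties (6) and (8) are equivalent.

(B) If `V(L)` is finite for all number fields `L` over `K`, then (3), (5) and (6) are true for ALL
systems of `n + 1` hyperplanes over `ℂ` without common point.

(C) If `V` is Kobayashi hyperbolic (over `ℂ`, via `σ`), then the statement in (1) is true for all
systems of `n + 1` hyperplanes over `L` without common point. -/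
theorem result (n d : ℕ) : ∃ (ε : ℝ) (B m : ℕ), 0 < ε ∧
    ∀ (K : Type) [Field K] [NumberField K] (σ : K →+* ℂ) (ι : Type) [Finite ι]
      (F : ι → MvPolynomial (Fin (n + 1)) (𝓞 K)), (∀ i, ∃ e ≤ d, (F i).IsHomogeneous e) →
      List.TFAE [
        ∀ (L : Type) [Field L] [NumberField L] [Algebra K L],
          FiniteIntegral F L (LinearEquiv.refl L _),
        ∀ x k, ¬ MonCurve σ F B (LinearEquiv.refl ℂ _) x k,
        TruncatedInequality σ F ε (LinearEquiv.refl ℂ _),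
        BrodyOrbifold σ F m (LinearEquiv.refl ℂ _),
        KobayashiOrbifold σ F m (LinearEquiv.refl ℂ _),
        ∀ k, m ≤ k → 0 < k → KobayashiFermat σ F k (LinearEquiv.refl ℂ _),
        ∃ k, 0 < k ∧ KobayashiFermat σ F k (LinearEquiv.refl ℂ _),
        ∀ k, 0 < k → ∀ (L : Type) [Field L] [NumberField L] [Algebra K L],
          FiniteIntegral (fermatForms F k) L (LinearEquiv.refl L _),
        ∃ k, 0 < k ∧ ∀ (L : Type) [Field L] [NumberField L] [Algebra K L],
          FiniteIntegral (fermatForms F k) L (LinearEquiv.refl L _)] ∧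
      (RationalFinite F (fun _ : Unit => 1) → ∀ ℓ, TruncatedInequality σ F ε ℓ ∧
        KobayashiOrbifold σ F m ℓ ∧ ∀ k, m ≤ k → 0 < k → KobayashiFermat σ F k ℓ) ∧
      (KobayashiOrbifold σ F 1 (LinearEquiv.refl ℂ _) →
        ∀ (L : Type) [Field L] [NumberField L] [Algebra K L] (ℓ), FiniteIntegral F L ℓ) := by
  obtain ⟨ε, B, m, hε, h⟩ := tfae_hyp n d
  refine ⟨ε, B, m, hε, fun K _ _ σ ι _ F hF => ?_⟩
  have hF' : ∀ i, ∃ e, (F i).IsHomogeneous e := fun i => by
    obtain ⟨e, -, he⟩ := hF i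
    exact ⟨e, he⟩
  have hE := forms_deg (σ := σ) hF
  have hone : ∀ v : Fin (n + 1) → ℂ, eval₂ (σ.comp (algebraMap (𝓞 K) K)) v
      ((fun _ : Unit => (1 : MvPolynomial (Fin (n + 1)) (𝓞 K))) ()) ≠ 0 := by
    intro v
    change eval₂ _ _ (1 : MvPolynomial (Fin (n + 1)) (𝓞 K)) ≠ 0
    rw [eval₂_one]
    exact one_ne_zero
  -- translations between the sets of forms
  have e2 : ∀ (ℓ : (Fin (n + 1) → ℂ) ≃ₗ[ℂ] (Fin (n + 1) → ℂ)),
      (∀ f, Cur (forms σ F) 1 f → Trunc ε (lin ℓ) 1 f) ↔ TruncatedInequality σ F ε ℓ := fun ℓ =>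
    ⟨fun h f hf => h f (cur_iff.1 hf), fun h f hf => h f (cur_iff.2 hf)⟩
  have e3 : ∀ (m : ℕ) (ℓ : (Fin (n + 1) → ℂ) ≃ₗ[ℂ] (Fin (n + 1) → ℂ)),
      (∀ f, Cur (forms σ F) 1 f → ¬ MultGe m (lin ℓ) 1 f) ↔ BrodyOrbifold σ F m ℓ := fun m ℓ =>
    ⟨fun h f hf => h f (cur_iff.1 hf), fun h f hf => h f (cur_iff.2 hf)⟩
  have e4 : ∀ (m : ℕ) (ℓ : (Fin (n + 1) → ℂ) ≃ₗ[ℂ] (Fin (n + 1) → ℂ)),
      Hyperbolic m ℓ (zeroSet (forms σ F)) ↔ KobayashiOrbifold σ F m ℓ := fun m ℓ => by
    unfold KobayashiOrbifold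
    rw [points_eq]
  have e1 : ∀ (B' : ℕ) (ℓ : (Fin (n + 1) → ℂ) ≃ₗ[ℂ] (Fin (n + 1) → ℂ)),
      (∀ x k, ¬ Mono B' (forms σ F) 1
        (ℓ.symm : (Fin (n + 1) → ℂ) →ₗ[ℂ] (Fin (n + 1) → ℂ)) x k) ↔
        ∀ x k, ¬ MonCurve σ F B' ℓ.symm x k := fun B' ℓ =>
    forall_congr' fun x => forall_congr' fun k => not_congr (mono_iff B' ℓ.symm x k)
  -- all degrees
  have hall : ∀ (ℓ : (Fin (n + 1) → ℂ) ≃ₗ[ℂ] (Fin (n + 1) → ℂ)),
      (∀ x k, ¬ MonCurve σ F B ℓ.symm x k) → ∀ B' x k, ¬ MonCurve σ F B' ℓ.symm x k := by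
    intro ℓ h0 B' x k hM
    have t1 := (h (forms σ F) hE ℓ B le_rfl).out 0 2
    have t2 := (h (forms σ F) hE ℓ (max B B') (le_max_left _ _)).out 0 2
    have t3 := t2.2 (t1.1 ((e1 B ℓ).2 h0))
    exact (e1 _ ℓ).1 t3 x k ⟨fun j => (hM.le j).trans (le_max_right _ _), hM.nc, hM.mem⟩
  have hEh : ∀ H ∈ forms σ F, ∃ e, H.IsHomogeneous e := fun H hH => by
    obtain ⟨e, -, he⟩ := hE H hH
    exact ⟨e, he⟩
  refine ⟨?_, fun hfin ℓ => ?_, fun hK L _ _ _ ℓ Γ hΓ => ?_⟩
  · have ht := h (forms σ F) hE (LinearEquiv.refl ℂ _) B le_rfl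
    have t12 := ht.out 0 1
    have t13 := ht.out 0 2
    have t14 := ht.out 0 3
    have hrefl : ∀ (x : Fin (n + 1) → ℂ) (k : Fin (n + 1) → ℕ) (t : ℂ),
        (LinearEquiv.refl ℂ (Fin (n + 1) → ℂ)) (fun j => x j * t ^ k j) = fun j => x j * t ^ k j :=
      fun _ _ _ => rfl
    tfae_have 1 → 2 := by
      intro h1 x k hM
      exact hone _ (a2_pt K ι Unit n σ F (fun _ => 1) (fun L _ _ _ Γ hΓ => h1 L Γ hΓ) x k hM.nc
        (fun t ht i => hM.mem t ht i) 1 one_ne_zero ())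
    tfae_have 2 → 1 := by
      intro h2 L _ _ _ Γ hΓ
      refine a1_pt K ι Unit n σ F (fun _ => 1) hF' (one_hom n K) (fun x k hnc hmem => ?_) L Γ hΓ
      exact absurd ⟨fun j => Finset.single_le_sum (f := k) (fun _ _ => Nat.zero_le _)
        (Finset.mem_univ j), hnc, hmem⟩ (hall (LinearEquiv.refl ℂ _) h2 (∑ j, k j) x k)
    tfae_have 2 ↔ 3 := by
      rw [← e2]
      exact ((e1 B (LinearEquiv.refl ℂ _)).symm).trans t12
    tfae_have 2 ↔ 4 := by
      rw [← e3]
      exact ((e1 B (LinearEquiv.refl ℂ _)).symm).trans t13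
    tfae_have 2 ↔ 5 := by
      rw [← e4]
      exact ((e1 B (LinearEquiv.refl ℂ _)).symm).trans t14
    tfae_have 4 → 6 := by
      intro h4 k hk hk0
      unfold KobayashiFermat
      rw [← fermat_eq]
      exact cover_hyp hEh hk hk0 ((e3 m _).2 h4)
    tfae_have 6 → 7 := fun h6 => ⟨m + 1, Nat.succ_pos m, h6 _ (Nat.le_succ m) (Nat.succ_pos m)⟩
    tfae_have 7 → 2 := by
      rintro ⟨k, hk0, h7⟩
      unfold KobayashiFermat at h7
      rw [← fermat_eq] at h7
      exact (e1 B (LinearEquiv.refl ℂ _)).1 fun x a => noMono_of_cover hEh hk0 h7 x a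
    tfae_have 2 → 8 := by
      intro h2 k hk0 L _ _ _ Γ hΓ
      refine a1_pt K ι Unit n σ (fermatForms F k) (fun _ => 1) (fermat_hom hF' k) (one_hom n K)
        (fun x a hnc hmem => ?_) L Γ hΓ
      exfalso
      obtain ⟨i, j, hxi, hxj, hij⟩ := hnc
      refine hall (LinearEquiv.refl ℂ _) h2 (∑ l, k * a l) (fun l => x l ^ k) (fun l => k * a l)
        ⟨fun l => Finset.single_le_sum (f := fun l => k * a l) (fun _ _ => Nat.zero_le _)
          (Finset.mem_univ l), ⟨i, j, pow_ne_zero _ hxi, pow_ne_zero _ hxj, fun h0 =>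
            hij (Nat.eq_of_mul_eq_mul_left hk0 h0)⟩, fun t ht l => ?_⟩
      have h1 := hmem t ht l
      rw [eval₂_fermat] at h1
      have h3 : (fun j => (x j * t ^ a j) ^ k) = fun j => x j ^ k * t ^ (k * a j) := by
        funext j
        rw [mul_pow, ← pow_mul, mul_comm (a j) k]
      rw [h3] at h1
      exact h1
    tfae_have 8 → 9 := fun h8 => ⟨1, one_pos, h8 1 one_pos⟩
    tfae_have 9 → 2 := by
      rintro ⟨k, hk0, h9⟩ x a hM
      choose r hr using fun l => IsAlgClosed.exists_pow_nat_eq (x l) hk0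
      have hr0 : ∀ l, x l ≠ 0 → r l ≠ 0 := by
        intro l hl h0
        apply hl
        rw [← hr l, h0, zero_pow hk0.ne']
      obtain ⟨i, j, hxi, hxj, hij⟩ := hM.nc
      refine hone _ (a2_pt K ι Unit n σ (fermatForms F k) (fun _ => 1)
        (fun L _ _ _ Γ hΓ => h9 L Γ hΓ) r a ⟨i, j, hr0 i hxi, hr0 j hxj, hij⟩
        (fun t ht l => ?_) 1 one_ne_zero ())
      rw [eval₂_fermat]
      have h1 := hM.mem (t ^ k) (pow_ne_zero _ ht) l
      have h3 : (fun j => (r j * t ^ a j) ^ k) = fun j => x j * (t ^ k) ^ a j := by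
        funext j
        rw [mul_pow, hr, ← pow_mul, ← pow_mul, mul_comm (a j) k]
      rw [h3]
      exact h1
    tfae_finish
  · have hno := noMono_of_finite (σ := σ) hF' hfin B ℓ.symm
    have ht := h (forms σ F) hE ℓ B le_rfl
    have t12 := ht.out 0 1
    have t13 := ht.out 0 2
    have t14 := ht.out 0 3
    refine ⟨(e2 ℓ).1 (t12.1 ((e1 B ℓ).2 hno)), (e4 m ℓ).1 (t14.1 ((e1 B ℓ).2 hno)),
      fun k hk hk0 => ?_⟩
    unfold KobayashiFermat
    rw [← fermat_eq]
    exact cover_hyp hEh hk hk0 (t13.1 ((e1 B ℓ).2 hno))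
  · refine a1_all K ι Unit n σ F (fun _ => 1) hF' (one_hom n K) (fun B' S x k hM => ?_) L ℓ Γ hΓ
    exfalso
    -- a monomial curve gives an entire curve
    have hM' := (mono_iff B' S x k).2 hM
    obtain ⟨h4, -⟩ := hM'.curve (inv_equiv S.symm)
    refine no_curve_of_hyperbolic (k := 1) (ℓ := LinearEquiv.refl ℂ _) (E := forms σ F)
      (fun H hH => by
        obtain ⟨e, -, he⟩ := hE H hH
        exact ⟨e, he⟩) ((e4 1 _).2 hK) h4 ⟨fun i z hy hz => ?_, fun z hz => ?_⟩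
    · have hd : Differentiable ℂ fun z => (LinearEquiv.refl ℂ (Fin (n + 1) → ℂ))
          ((S : (Fin (n + 1) → ℂ) →ₗ[ℂ] (Fin (n + 1) → ℂ)) fun j => x j * Complex.exp z ^ k j) i :=
        differentiable_pi.1 h4.df i
      rw [Nat.cast_one, Order.one_le_iff_ne_zero]
      exact (hd.analyticAt z).analyticOrderAt_ne_zero.2 hz
    · rw [map_one] at hz
      exact absurd hz one_ne_zero

end Pool.Agent.Results.MP_f82ddf_nt.OrbifoldHyperbolicity
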