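import Mathlib
import Pool.Agent.Q33.OD.Opp

/-!
MP_f82ddf_nt: one exceptional set, a finite union of uniruled subvarieties, for all curves given by
linear differential systems with `r` rows and for all orbits of groups of `r`-rowed matrices.
-/

set_option autoImplicit false

namespace Pool.Agent.Results.MP_f82ddf_nt.StrongHolonomic

open MvPolynomial Set Pool.Agent.TH143 Pool.Agent.TH143.GT Pool.Agent.H533R3.SL
  Pool.Agent.TH717.GO Pool.Agent.Q33.OD

/-- Let `X` be the closed subset `FF = 0` of projective `n`-space over a number field `k`, given by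
forms.

(1) For every `r` there is a finite set `T` of closed irreducible subvarieties `Z` of `X`, defined
over `k` and covered by rational curves (so `Z ≠ X` if `X` is irreducible and not uniruled, and `T` is
empty if `X` contains no rational curves) with the following two properties.

(a) For every embedding of `k` into `ℂ`, every domain `Ω`, every ring `B` of holomorphic functions on
`Ω` closed under differentiation, and every holomorphic `f : Ω → X(ℂ)` of the form `f = M y` with
`s y' = A y`, where `A`, `M` are matrices and `0 ≠ s` is an element over `B` and `y` has at most `r`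
entries (or, such that each coordinate of `f` satisfies a linear differential equation over `B` of
order at most `m`, `(n + 1) m ≤ r`): if not all quotients of coordinates of `f` are algebraic over
`B`, then `f(Ω)` is contained in one of the subvarieties `Z ∈ T`.

(b) For every number field `K ⊇ k` of degree at most `D` over `ℚ`, every group `H`, representation
`ρ : H → GL_r(K)`, matrix `M` and vector `v` over `K` such that all the points `M ρ(h) v` lie on `X`:
at most `bd r D` of these points are outside the union of the `Z ∈ T`.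

(2) Conversely, let `Z` be a uniruled closed subvariety of `X` over `k`. For some `r` the entire
curves in `Z` as in (a) (even with constant coefficients and polynomial coordinates, for every
embedding of `k`), and for some `r` the infinite orbits as in (b) (even of cyclic groups), are
Zariski-dense in `Z`. -/
theorem result (k : Type) [Field k] [NumberField k] (n : ℕ)
    (FF : Finset (MvPolynomial (Fin (n + 1)) k)) (hhom : ∀ F ∈ FF, ∃ e, F.IsHomogeneous e) :
    (∀ r : ℕ, ∃ T : Set (Finset (MvPolynomial (Fin (n + 1)) k)), T.Finite ∧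
      (∀ Z ∈ T, UniSub (FF : Set (MvPolynomial (Fin (n + 1)) k)) Z) ∧
      (∀ [Algebra k ℂ] (Ω : Set ℂ) (B : Subalgebra ℂ (ℂ → ℂ)), IsOpen Ω → IsPreconnected Ω →
        DiffRing Ω B → ∀ f : ℂ → Fin (n + 1) → ℂ, (∀ j, AnalyticOnNhd ℂ (fun w => f w j) Ω) →
        (LinSys r Ω B f ∨ ∃ m, (n + 1) * m ≤ r ∧ ∀ j, LinOrd m Ω B (fun w => f w j)) →
        (∀ F ∈ FF, ∀ z ∈ Ω, aeval (f z) F = 0) →
        (∃ i j, (∃ z ∈ Ω, f z j ≠ 0) ∧ ¬ AlgOver Ω B (fun w => f w i) (fun w => f w j)) →
        ∃ Z ∈ T, ∀ F ∈ Z, ∀ z ∈ Ω, aeval (f z) F = 0) ∧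
      ∀ (K : Type) [Field K] [NumberField K] [Algebra k K] (D : ℕ), Module.finrank ℚ K ≤ D →
        ∀ (H : Type) [Group H] (ρ : H →* Matrix.GeneralLinearGroup (Fin r) K)
        (M : Matrix (Fin (n + 1)) (Fin r) K) (v : Fin r → K),
        (∀ h, ∀ F ∈ FF, aeval (orb M ρ v h) F = 0) → (orbitOut T M ρ v).encard ≤ bd r D) ∧
    ∀ Z, UniSub (FF : Set (MvPolynomial (Fin (n + 1)) k)) Z →
      (∃ r : ℕ, ∀ [Algebra k ℂ] (G : MvPolynomial (Fin (n + 1)) k), (∃ e, G.IsHomogeneous e) →
        G ∉ Ideal.span (Z : Set (MvPolynomial (Fin (n + 1)) k)) →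
        ∃ p : Fin (n + 1) → Polynomial ℂ,
          LinSys r univ (⊥ : Subalgebra ℂ (ℂ → ℂ)) (fun z i => (p i).eval z) ∧
          (∀ F ∈ Z, ∀ z : ℂ, aeval (fun i => (p i).eval z) F = 0) ∧
          aeval (fun i => (p i).eval 1) G ≠ 0 ∧
          ∃ i j, (∃ z ∈ (univ : Set ℂ), (p j).eval z ≠ 0) ∧
            ¬ AlgOver univ (⊥ : Subalgebra ℂ (ℂ → ℂ)) (fun z => (p i).eval z)
              (fun z => (p j).eval z)) ∧
      ∃ r : ℕ, ∀ G : MvPolynomial (Fin (n + 1)) k, (∃ e, G.IsHomogeneous e) →
        G ∉ Ideal.span (Z : Set (MvPolynomial (Fin (n + 1)) k)) →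
        ∃ (K : Type) (_ : Field K) (_ : NumberField K) (_ : Algebra k K)
          (ρ : Multiplicative ℤ →* Matrix.GeneralLinearGroup (Fin r) K)
          (M : Matrix (Fin (n + 1)) (Fin r) K) (v : Fin r → K),
          (∀ h, ∀ F ∈ Z, aeval (orb M ρ v h) F = 0) ∧ (orbitOff G M ρ v).Infinite := by
  refine ⟨fun r => ?_, fun Z hZ => ⟨?_, ?_⟩⟩
  · obtain ⟨T, hT, hTU, hlist⟩ := curve_list (r * r) FF hhom
    refine ⟨T, hT, hTU, ?_, ?_⟩
    · intro _ Ω B hΩ hΩc hB f hf hlin hF hna
      have hne : Ω.Nonempty := by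
        obtain ⟨i, j, ⟨z, hz, -⟩, -⟩ := hna
        exact ⟨z, hz⟩
      have hls : LinSys r Ω B f := by
        rcases hlin with h | ⟨m, hm, h⟩
        · exact h
        · obtain ⟨n', s, A, M, y, h1, h2⟩ := linSys_of_linOrd hΩc hne hB hf h
          exact ⟨n', s, A, M, y, h1.trans hm, h2⟩
      exact ode_list hhom r hT hlist hΩ hΩc hB hf hls hF hna
    · intro K _ _ _ D hD H _ ρ M v hX
      exact orbit_out hhom le_rfl hT (fun Z hZ => (hTU Z hZ).1) hlist hD ρ M v hX
  · obtain ⟨r, hr⟩ := opp_an Z hZ.2.2.1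
    refine ⟨r, fun G hG1 hG2 => ?_⟩
    obtain ⟨p, h1, h2, h3, h4⟩ := hr G hG1 hG2
    refine ⟨p, linSys_poly p h1, fun F hF z => ?_, h3, not_alg_poly p h4⟩
    have h5 : (aeval p F).eval z = aeval (fun i => (p i).eval z) F :=
      MvPolynomial.comp_aeval_apply (R := k) p
        ((Polynomial.aeval z : Polynomial ℂ →ₐ[ℂ] ℂ).restrictScalars k) F
    rw [← h5, h2 F hF, Polynomial.eval_zero]
  · obtain ⟨r, hr⟩ := converse Z hZ.2.2.1
    refine ⟨r, fun G hG1 hG2 => ?_⟩
    obtain ⟨K, i1, i2, i3, ρ, M, v, -, h2, h3⟩ := hr G hG1 hG2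
    exact ⟨K, i1, i2, i3, ρ, M, v, h2, h3⟩

end Pool.Agent.Results.MP_f82ddf_nt.StrongHolonomic
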